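import Pool.Agent.Lib.MP_c052b4_al.KOneCalc
import Pool.Agent.Lib.MP_c052b4_al.Trans

set_option autoImplicit false
set_option linter.unusedSectionVars false

namespace Pool.Agent.Lib.MP_c052b4_al.LK

open Matrix Kern

universe u v w

section E03aux

variable {T : Type u} [Ring T]

/-- The block diagonal unit. -/
private noncomputable def e03_bdU {n k : ℕ} (B : Fin n → (Matrix (Fin k) (Fin k) T)ˣ) :
    (Matrix (Fin k × Fin n) (Fin k × Fin n) T)ˣ where
  val := Matrix.blockDiagonal fun i => (B i : Matrix (Fin k) (Fin k) T)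
  inv := Matrix.blockDiagonal fun i => ((B i)⁻¹ : (Matrix (Fin k) (Fin k) T)ˣ)
  val_inv := by
    rw [← Matrix.blockDiagonal_mul]
    simp only [Units.mul_inv]
    exact Matrix.blockDiagonal_one
  inv_val := by
    rw [← Matrix.blockDiagonal_mul]
    simp only [Units.inv_mul]
    exact Matrix.blockDiagonal_one

/-- The first block. -/
private def e03_eq (k n : ℕ) : Fin k ⊕ (Fin k × Fin n) ≃ Fin k × Fin (n + 1) where
  toFun := Sum.elim (fun a => (a, 0)) (fun x => (x.1, x.2.succ))
  invFun x := Fin.cases (Sum.inl x.1) (fun i => Sum.inr (x.1, i)) x.2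
  left_inv := by
    rintro (a | ⟨a, i⟩)
    · rfl
    · rfl
  right_inv := by
    rintro ⟨a, i⟩
    refine Fin.cases ?_ (fun i => ?_) i
    · rfl
    · rfl

private theorem e03_k1_bd {k : ℕ} : ∀ (n : ℕ) (B : Fin n → (Matrix (Fin k) (Fin k) T)ˣ),
    k1 (e03_bdU B) = ∑ i, k1 (B i) := by
  intro n
  induction n with
  | zero =>
    intro B
    have h : e03_bdU B = 1 := by
      apply Units.ext
      ext ⟨a, i⟩
      exact i.elim0
    rw [h, k1_one]
    rfl
  | succ n ih =>
    intro B
    have h : e03_bdU B = rU (e03_eq k n) (bl (B 0) (e03_bdU fun i => B i.succ)) := by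
      apply Units.ext
      rw [coe_rU, coe_bl]
      ext ⟨a, i⟩ ⟨b, j⟩
      refine Fin.cases ?_ (fun i => ?_) i <;> refine Fin.cases ?_ (fun j => ?_) j
      · simp [e03_bdU, e03_eq, Matrix.blockDiagonal_apply]
      · simp [e03_bdU, e03_eq, Matrix.blockDiagonal_apply, (Fin.succ_ne_zero j).symm]
      · simp [e03_bdU, e03_eq, Matrix.blockDiagonal_apply, Fin.succ_ne_zero i]
      · simp [e03_bdU, e03_eq, Matrix.blockDiagonal_apply, Fin.succ_inj]
    rw [h, k1_rU, k1_bl, ih, Fin.sum_univ_succ]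

end E03aux

section

variable {R : Type u} [Ring R] {Γ : Type v} [Group Γ] {V : Type w} [MulAction Γ V]

/-- A block diagonal matrix. -/
noncomputable def blkM {n k : ℕ} (y : Fin n → V)
    (A : ∀ i, Matrix (Fin k) (Fin k) (MonoidAlgebra R (MulAction.stabilizer Γ (y i)))) :
    Matrix (Fin k × Fin n) (Fin k × Fin n) (MonoidAlgebra R Γ) :=
  Matrix.blockDiagonal fun i => (A i).map (inc R (MulAction.stabilizer Γ (y i)).subtype)

theorem blkM_one {n k : ℕ} (y : Fin n → V) :
    blkM (Γ := Γ) (R := R) (k := k) y (fun _ => 1) = 1 := by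
  unfold blkM
  have h : (fun i : Fin n => (1 : Matrix (Fin k) (Fin k)
      (MonoidAlgebra R (MulAction.stabilizer Γ (y i)))).map
        (inc R (MulAction.stabilizer Γ (y i)).subtype)) =
      fun _ => (1 : Matrix (Fin k) (Fin k) (MonoidAlgebra R Γ)) := by
    funext i
    exact Matrix.map_one _ (map_zero _) (map_one _)
  rw [h]
  exact Matrix.blockDiagonal_one

theorem blkM_mul {n k : ℕ} (y : Fin n → V)
    (A A' : ∀ i, Matrix (Fin k) (Fin k) (MonoidAlgebra R (MulAction.stabilizer Γ (y i)))) :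
    blkM y (fun i => A i * A' i) = blkM y A * blkM y A' := by
  unfold blkM
  rw [← Matrix.blockDiagonal_mul]
  have h : (fun i : Fin n => (A i * A' i).map (inc R (MulAction.stabilizer Γ (y i)).subtype)) =
      fun i => (A i).map (inc R (MulAction.stabilizer Γ (y i)).subtype) *
        (A' i).map (inc R (MulAction.stabilizer Γ (y i)).subtype) := by
    funext i
    rw [Matrix.map_mul]
  rw [h]

/-- The block diagonal unit. -/
noncomputable def blkU {n k : ℕ} (y : Fin n → V)
    (A : ∀ i, (Matrix (Fin k) (Fin k) (MonoidAlgebra R (MulAction.stabilizer Γ (y i))))ˣ) :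
    (Matrix (Fin k × Fin n) (Fin k × Fin n) (MonoidAlgebra R Γ))ˣ where
  val := blkM y fun i => (A i : Matrix (Fin k) (Fin k) _)
  inv := blkM y fun i => ((A i)⁻¹ : (Matrix (Fin k) (Fin k) _)ˣ)
  val_inv := by
    rw [← blkM_mul]
    simp only [Units.mul_inv]
    exact blkM_one y
  inv_val := by
    rw [← blkM_mul]
    simp only [Units.inv_mul]
    exact blkM_one y

theorem k1_blkU {n k : ℕ} (y : Fin n → V)
    (A : ∀ i, (Matrix (Fin k) (Fin k) (MonoidAlgebra R (MulAction.stabilizer Γ (y i))))ˣ) :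
    k1 (blkU y A :) = ∑ i, KOne.map (inc R (MulAction.stabilizer Γ (y i)).subtype) (k1 (A i)) := by
  have h : blkU y A =
      e03_bdU fun i => mU (inc R (MulAction.stabilizer Γ (y i)).subtype) (A i) := by
    apply Units.ext
    rfl
  rw [h, e03_k1_bd]
  refine Finset.sum_congr rfl fun i _ => ?_
  rw [KOne.map_k1]

theorem blkM_graded {n k : ℕ} (y : Fin n → V)
    (A : ∀ i, Matrix (Fin k) (Fin k) (MonoidAlgebra R (MulAction.stabilizer Γ (y i))))
    (a b : Fin k × Fin n) (g : Γ) (h : (blkM y A a b).coeff g ≠ 0) : g • y b.2 = y a.2 := by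
  unfold blkM at h
  rw [Matrix.blockDiagonal_apply] at h
  split_ifs at h with h1
  · rw [← h1]
    by_contra h2
    apply h
    rw [Matrix.map_apply]
    refine sup_inc _ _ g ?_
    rintro ⟨c, rfl⟩
    exact h2 c.2
  · exact absurd rfl h

end

end Pool.Agent.Lib.MP_c052b4_al.LK
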