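import Pool.Agent.Lib.MP_c052b4_al.AS.Fin
import Pool.Agent.Lib.MP_c052b4_al.Mg.G082
import Pool.Agent.Lib.MP_c052b4_al.Mg.G081

/-!
# The assembly map in degree one: the bijectivity property
-/

set_option autoImplicit false
set_option linter.unusedSectionVars false

namespace Pool.Agent.Lib.MP_c052b4_al.LK

open Matrix TensorProduct MulAction

universe u v w

/-- `A₁` is surjective and injective for all regular rings. -/
structure HB (G : Type v) [Group G] : Prop where
  onto : HK.{u} G
  inj : ∀ (R : Type u) [Ring R], IsRegularRing R → InjA R G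

theorem HB.of_tree {G : Type v} [Group G] (hG : HK.{u} G) {V : Type w} [MulAction G V]
    (T : TreeAction G V) (hv : ∀ x : V, HB.{u} (stabilizer G x))
    (he : ∀ x y : V, T.graph.Adj x y → HK.{u} ↥(stabilizer G x ⊓ stabilizer G y)) :
    HB.{u} G :=
  ⟨hG, fun R _ hR => injA_of_tree T (fun x => (hv x).onto R hR) (fun x => (hv x).inj R hR)
    fun x y h => he x y h R hR⟩

theorem HB.of_subsingleton (G : Type v) [Group G] [Subsingleton G] : HB.{u} G :=
  ⟨fun _ _ _ => imA1_of_subsingleton, fun _ _ _ => InjA.of_subsingleton⟩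

theorem HB.of_directed {G : Type v} [Group G] (S : Set (Subgroup G)) (hne : S.Nonempty)
    (hdir : ∀ H ∈ S, ∀ K ∈ S, ∃ L ∈ S, H ≤ L ∧ K ≤ L) (hcov : ∀ g : G, ∃ H ∈ S, g ∈ H)
    (h : ∀ H ∈ S, HB.{u} H) : HB.{u} G :=
  ⟨fun R _ hR => imA1_of_directed S hne hdir hcov fun H hH => (h H hH).onto R hR,
    fun R _ hR => InjA.of_directed S hne hdir hcov fun H hH => (h H hH).inj R hR⟩

theorem HB.of_fg {G : Type v} [Group G] (h : ∀ H : Subgroup G, H.FG → HB.{u} H) : HB.{u} G := by
  refine HB.of_directed {H : Subgroup G | H.FG} ⟨⊥, ?_⟩ ?_ ?_ h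
  · exact (Subgroup.fg_iff _).2 ⟨∅, by simp, Set.finite_empty⟩
  · intro H hH K hK
    exact ⟨H ⊔ K, Subgroup.FG.sup hH hK, le_sup_left, le_sup_right⟩
  · intro g
    exact ⟨Subgroup.closure {g}, (Subgroup.fg_iff _).2 ⟨{g}, rfl, Set.finite_singleton g⟩,
      Subgroup.subset_closure (Set.mem_singleton g)⟩

section Final

variable {R : Type u} [Ring R] {G : Type v} [Group G]

theorem asmOne_injective (h : InjA R G) : Function.Injective (asmOne R G) := by
  rw [injective_iff_map_eq_zero]
  intro z hz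
  have h1 : asm R G (phi R z.1, z.2) = asm R G 0 := by
    rw [← phi_asmOne, hz, map_zero, map_zero]
  have h2 := h.asm_inj h1
  have h3 : phi R z.1 = 0 := congrArg Prod.fst h2
  have h4 : z.2 = 0 := congrArg Prod.snd h2
  have h5 : z.1 = 0 := by
    apply phi_injective
    rw [h3, map_zero]
  exact Prod.ext h5 h4

/-- The assembly map in degree one is bijective. -/
theorem exists_bijective (h : imA R G = ⊤) (h' : InjA R G) :
    ∃ A : HOne R G →+ K1Grp (MonoidAlgebra R G), IsAssemblyOne A ∧ Function.Bijective A :=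
  ⟨asmOne R G, ⟨(isAsm1_asmOne R G).1, (isAsm1_asmOne R G).2⟩, asmOne_injective h',
    asmOne_surjective h⟩

/-- The assembly map in degree one is determined by its values. -/
theorem isAsm1_eq
    {A B : K1Grp R × (Additive (Abelianization G) ⊗[ℤ] KZero R) →+ K1Grp (MonoidAlgebra R G)}
    (hA : IsAsm1 R G A) (hB : IsAsm1 R G B) : A = B := by
  apply AddMonoidHom.ext
  rintro ⟨x, t⟩
  have hsplit : ((x, t) : K1Grp R × (Additive (Abelianization G) ⊗[ℤ] KZero R)) =
      (x, 0) + (0, t) := by
    rw [Prod.mk_add_mk, add_zero, zero_add]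
  rw [hsplit, map_add, map_add, hA.1, hB.1]
  congr 1
  clear hsplit
  induction t with
  | zero => exact (map_zero A).trans (map_zero B).symm
  | add s t hs ht =>
    have hadd : ((0, s + t) : K1Grp R × (Additive (Abelianization G) ⊗[ℤ] KZero R)) =
        (0, s) + (0, t) := by
      rw [Prod.mk_add_mk, add_zero]
    rw [hadd, map_add, map_add, hs, ht]
  | tmul a k =>
    obtain ⟨g, rfl⟩ := exists_of a
    obtain ⟨p, q, rfl⟩ := KZero.exists_sub k
    have hsub : ((0, Additive.ofMul (Abelianization.of g) ⊗ₜ[ℤ] (KZero.cls p - KZero.cls q)) :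
        K1Grp R × (Additive (Abelianization G) ⊗[ℤ] KZero R)) =
        (0, Additive.ofMul (Abelianization.of g) ⊗ₜ[ℤ] KZero.cls p) -
        (0, Additive.ofMul (Abelianization.of g) ⊗ₜ[ℤ] KZero.cls q) := by
      rw [Prod.mk_sub_mk, sub_zero, TensorProduct.tmul_sub]
    rw [hsub, map_sub, map_sub, hA.2 g p (elU g p) (elMat_eq g p),
      hA.2 g q (elU g q) (elMat_eq g q), hB.2 g p (elU g p) (elMat_eq g p),
      hB.2 g q (elU g q) (elMat_eq g q)]

theorem injA_of_bijective {A : HOne R G →+ K1Grp (MonoidAlgebra R G)} (hA : IsAssemblyOne A)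
    (hi : Function.Injective A) : InjA R G := by
  have h0 : IsAsm1 R G A := ⟨hA.1, hA.2⟩
  have h1 : (A : K1Grp R × (Additive (Abelianization G) ⊗[ℤ] KZero R) →+
      K1Grp (MonoidAlgebra R G)) = asmOne R G := isAsm1_eq h0 (isAsm1_asmOne R G)
  have h2 : Function.Injective (asmOne R G) := by
    rw [← h1]
    exact hi
  intro z hz
  have h3 : asmOne R G (0, z) = asmOne R G 0 := by
    rw [map_zero]
    apply phi_injective
    rw [phi_asmOne, map_zero, map_zero]
    show KOne.map (cG R G) 0 + tens R G z = 0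
    rw [map_zero, zero_add, hz]
  exact congrArg Prod.snd (h2 h3)

end Final

end Pool.Agent.Lib.MP_c052b4_al.LK
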