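import Pool.Agent.Lib.MP_c052b4_al.LK.F4
import Pool.Agent.Lib.MP_c052b4_al.TD.Rel5

/-!
# The assembly map in degree one: tree actions
-/

set_option autoImplicit false
set_option linter.unusedSectionVars false

namespace Pool.Agent.Lib.MP_c052b4_al.LK

open MulAction

universe u v w

/-- All subgroups of groups in the class satisfy `HB`. -/
theorem hb_hered {G : Type v} [Group G] (h : TTCl.{u} G) :
    ∀ (H : Type v) [Group H] (f : H →* G), Function.Injective f → HB.{u} H := by
  induction h with
  | triv G =>
    intro H _ f hf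
    have : Subsingleton H := hf.subsingleton
    exact HB.of_subsingleton H
  | sub G G' g hg _ ih =>
    intro H _ f hf
    exact ih H (g.comp f) (hg.comp hf)
  | union G S hS hdir hcov _ ih =>
    intro H _ f hf
    refine HB.of_directed ((fun A : Subgroup G => A.comap f) '' S) (hS.image _) ?_ ?_ ?_
    · rintro _ ⟨A, hA, rfl⟩ _ ⟨B, hB, rfl⟩
      obtain ⟨C, hC, h1, h2⟩ := hdir A hA B hB
      exact ⟨_, ⟨C, hC, rfl⟩, Subgroup.comap_mono h1, Subgroup.comap_mono h2⟩
    · intro g
      obtain ⟨A, hA, hg⟩ := hcov (f g)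
      exact ⟨_, ⟨A, hA, rfl⟩, hg⟩
    · rintro _ ⟨A, hA, rfl⟩
      exact ih A hA _ (subMap f (A.comap f) A fun x hx => hx) (subMap_injective f hf _ _ _)
  | tree G V T hv hray ih =>
    intro H _ f hf
    let _ : MulAction H V := MulAction.compHom V f
    refine HB.of_tree ((TTCl.tree G V T hv hray).hered H f hf) (T.comp f) (fun v => ?_)
      fun x y _ => ?_
    · exact ih v _ (subMap f (stabilizer H v) (stabilizer G v) fun x hx => hx)
        (subMap_injective f hf _ _ _)
    · exact (ih x _ (subMap f (stabilizer H x ⊓ stabilizer H y) (stabilizer G x)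
        fun g hg => hg.1) (subMap_injective f hf _ _ _)).onto

theorem hb_of_ttcl {G : Type v} [Group G] (h : TTCl.{u} G) : HB.{u} G :=
  hb_hered h G (MonoidHom.id G) Function.injective_id

/-- Tree actions with the condition on rays. -/
theorem hb_of_tree_rayT {G : Type v} [Group G] {V : Type w} [MulAction G V] (T : TreeAction G V)
    (hray : RayCondT.{u} T) (hv : ∀ v : V, HB.{u} (stabilizer G v))
    (he : ∀ x y : V, T.graph.Adj x y → HK.{u} ↥(stabilizer G x ⊓ stabilizer G y)) : HB.{u} G :=
  HB.of_tree (hk_of_tree_rayT T hray (fun x => (hv x).onto)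
    fun x y h R _ hR => (he x y h).kSurj hR) T hv he

end Pool.Agent.Lib.MP_c052b4_al.LK
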