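import Pool.Agent.Lib.MP_c052b4_al.LK.F4
import Pool.Agent.Lib.MP_c052b4_al.LN.Final

/-!
# The assembly map in degree one: tree actions and lines
-/

set_option autoImplicit false
set_option linter.unusedSectionVars false

namespace Pool.Agent.Lib.MP_c052b4_al.LK

open MulAction

universe u v w

/-- Tree actions with the condition on lines. -/
theorem hb_of_tree_lines {G : Type v} [Group G] {V : Type w} [MulAction G V] (T : TreeAction G V)
    (hv : ∀ v : V, HB.{u} (stabilizer G v))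
    (he : ∀ x y : V, T.graph.Adj x y → HK.{u} ↥(stabilizer G x ⊓ stabilizer G y))
    (hs : ∀ ℓ : ℤ → V, IsLine T.graph ℓ → LocPer G ℓ → ∃ a b : ℤ, ∀ g : G,
      (∀ n, a ≤ n → n ≤ b → g • ℓ n = ℓ n) → ∀ n, g • ℓ n = ℓ n)
    (ht : ∀ ℓ : ℤ → V, IsLine T.graph ℓ → (∃ (g : G) (m : ℤ), m ≠ 0 ∧ ∀ n, g • ℓ n = ℓ (n + m)) →
      HK.{u} (Trl G ℓ)) : HB.{u} G :=
  HB.of_tree (hk_of_tree_lines T (fun x => (hv x).onto) (fun x y h R _ hR => (he x y h).kSurj hR)
    hs ht) T hv he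

end Pool.Agent.Lib.MP_c052b4_al.LK
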