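import Pool.Agent.Lib.MP_c052b4_al.Mg.G081
import Pool.Agent.Lib.MP_c052b4_al.LN.Final

/-!
# Groups of translations of a line

`A₁` is onto for the group of all translations of a line of a tree if it is onto for the pointwise
stabilizer of the line and if this stabilizer lies in the class `TDCl`.
-/

set_option autoImplicit false
set_option linter.unusedSectionVars false

namespace Pool.Agent.Lib.MP_c052b4_al.LK

open MulAction SimpleGraph

universe u v w

/-- The line graph on the integers. -/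
def zGraph : SimpleGraph ℤ where
  Adj a b := b = a + 1 ∨ a = b + 1
  symm := ⟨fun a b h => h.symm⟩
  loopless := ⟨fun a h => by omega⟩

theorem zGraph_adj {a b : ℤ} : zGraph.Adj a b ↔ b = a + 1 ∨ a = b + 1 := Iff.rfl

theorem zGraph_reach (a : ℤ) (n : ℕ) : zGraph.Reachable a (a + n) := by
  induction n with
  | zero => simp
  | succ n ih =>
    refine ih.trans (Adj.reachable ?_)
    left
    push_cast
    ring

theorem zGraph_connected : zGraph.Connected := by
  refine ⟨fun a b => ?_⟩
  rcases le_total a b with h | h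
  · obtain ⟨n, rfl⟩ : ∃ n : ℕ, b = a + n := ⟨(b - a).toNat, by omega⟩
    exact zGraph_reach a n
  · obtain ⟨n, rfl⟩ : ∃ n : ℕ, a = b + n := ⟨(a - b).toNat, by omega⟩
    exact (zGraph_reach b n).symm

theorem zGraph_tree : zGraph.IsTree := by
  refine ⟨zGraph_connected, ?_⟩
  rw [isAcyclic_iff_forall_adj_isBridge]
  have key : ∀ a : ℤ, zGraph.IsBridge s(a, a + 1) := by
    intro a
    rw [isBridge_iff]
    rintro ⟨p⟩
    have h1 : ∀ {x y : ℤ}, (zGraph \ fromEdgeSet {s(a, a + 1)}).Walk x y → x ≤ a → y ≤ a := by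
      intro x y q
      induction q with
      | nil => exact id
      | cons h q ih =>
        intro hx
        apply ih
        rw [sdiff_adj, fromEdgeSet_adj, zGraph_adj] at h
        obtain ⟨h2, h3⟩ := h
        by_contra h4
        apply h3
        rename_i u v w
        have h5 : u = a := by omega
        have h6 : v = a + 1 := by omega
        subst h5 h6
        refine ⟨rfl, by omega⟩
    have h2 := h1 p le_rfl
    omega
  rintro a b (h | h)
  · rw [h]; exact key a
  · rw [h, Sym2.eq_swap]; exact key b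

section Line

variable {V : Type w} {T : SimpleGraph V} {ℓ : ℤ → V}

theorem line_dist (hT : T.IsTree) (hℓ : IsLine T ℓ) (a : ℤ) (n : ℕ) :
    T.dist (ℓ a) (ℓ (a + n)) = n ∧ T.dist (ℓ a) (ℓ (a + n + 1)) = n + 1 := by
  induction n with
  | zero =>
    constructor
    · simp
    · have h1 := (hℓ a).1
      rw [Nat.cast_zero, add_zero, zero_add]
      exact dist_eq_one_iff_adj.mpr h1
  | succ n ih =>
    obtain ⟨h1, h2⟩ := ih
    have e1 : a + ((n + 1 : ℕ) : ℤ) = a + n + 1 := by push_cast; ring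
    rw [e1]
    refine ⟨h2, ?_⟩
    have h3 := (hℓ (a + n + 1)).1
    have h4 := (hℓ (a + n)).1
    have h5 := (hℓ (a + n)).2
    rcases hT.dist_eq_dist_add_one_of_adj (ℓ a) h3 with h | h
    · exfalso
      have h6 := closer_unique hT (ℓ a) h3 h4.symm h (by rw [h2, h1])
      have e2 : a + (n : ℤ) + 2 = a + n + 1 + 1 := by ring
      rw [e2] at h5
      exact h5 h6
    · rw [h, h2]

theorem line_inj (hT : T.IsTree) (hℓ : IsLine T ℓ) : Function.Injective ℓ := by
  have key : ∀ (a : ℤ) (n : ℕ), ℓ a = ℓ (a + n) → n = 0 := by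
    intro a n h
    have h1 := (line_dist hT hℓ a n).1
    rw [← h, dist_self] at h1
    exact h1.symm
  intro a b h
  rcases le_total a b with h1 | h1
  · obtain ⟨n, rfl⟩ : ∃ n : ℕ, b = a + n := ⟨(b - a).toNat, by omega⟩
    rw [key a n h]; simp
  · obtain ⟨n, rfl⟩ : ∃ n : ℕ, a = b + n := ⟨(a - b).toNat, by omega⟩
    rw [key b n h.symm]; simp

end Line

section Trans

variable {G : Type v} [Group G] {V : Type w} [MulAction G V] {ℓ : ℤ → V}

/-- The length of a translation of the line. -/
noncomputable def sh (g : Trl G ℓ) : ℤ := g.2.choose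

theorem sh_spec (g : Trl G ℓ) (n : ℤ) : (g : G) • ℓ n = ℓ (n + sh g) := g.2.choose_spec n

theorem sh_eq (hℓ : Function.Injective ℓ) (g : Trl G ℓ) (m : ℤ)
    (h : (g : G) • ℓ 0 = ℓ m) : sh g = m := by
  rw [sh_spec g 0, zero_add] at h
  exact hℓ h

theorem sh_one (hℓ : Function.Injective ℓ) : sh (1 : Trl G ℓ) = 0 := by
  apply sh_eq hℓ
  rw [Subgroup.coe_one, one_smul]

theorem sh_mul (hℓ : Function.Injective ℓ) (g h : Trl G ℓ) : sh (g * h) = sh h + sh g := by
  apply sh_eq hℓ
  rw [Subgroup.coe_mul, mul_smul, sh_spec h 0, zero_add, sh_spec g]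

/-- The action of the translations of the line on the integers. -/
@[reducible] noncomputable def shAct (hℓ : Function.Injective ℓ) : MulAction (Trl G ℓ) ℤ where
  smul g n := n + sh g
  one_smul n := by
    change n + sh (1 : Trl G ℓ) = n
    rw [sh_one hℓ, add_zero]
  mul_smul g h n := by
    change n + sh (g * h) = n + sh h + sh g
    rw [sh_mul hℓ, add_assoc]

/-- The pointwise stabilizer of the line. -/
def fixL (G : Type v) [Group G] {V : Type w} [MulAction G V] (ℓ : ℤ → V) : Subgroup G :=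
  ⨅ n : ℤ, stabilizer G (ℓ n)

theorem mem_fixL {g : G} : g ∈ fixL G ℓ ↔ ∀ n, g • ℓ n = ℓ n := by
  unfold fixL
  simp [Subgroup.mem_iInf, mem_stabilizer_iff]

theorem mem_trl_of_fixL {g : G} (h : g ∈ fixL G ℓ) : g ∈ Trl G ℓ :=
  ⟨0, fun n => by rw [add_zero]; exact mem_fixL.mp h n⟩

theorem sh_eq_zero_iff (hℓ : Function.Injective ℓ) (g : Trl G ℓ) :
    sh g = 0 ↔ (g : G) ∈ fixL G ℓ := by
  constructor
  · intro h
    rw [mem_fixL]
    intro n
    rw [sh_spec g n, h, add_zero]
  · intro h
    exact sh_eq hℓ g 0 (mem_fixL.mp h 0)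

/-- The subgroup of the translations of length zero is the pointwise stabilizer. -/
def fixEquiv (hℓ : Function.Injective ℓ) (S : Subgroup (Trl G ℓ))
    (hS : ∀ g : Trl G ℓ, g ∈ S ↔ sh g = 0) : fixL G ℓ ≃* S where
  toFun x := ⟨⟨x.1, mem_trl_of_fixL x.2⟩, (hS _).mpr ((sh_eq_zero_iff hℓ _).mpr x.2)⟩
  invFun y := ⟨y.1.1, (sh_eq_zero_iff hℓ _).mp ((hS _).mp y.2)⟩
  left_inv _ := rfl
  right_inv _ := rfl
  map_mul' _ _ := rfl

theorem hk_of_equiv {H : Type v} {H' : Type v} [Group H] [Group H'] (e : H ≃* H')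
    (h : HK.{u} H) : HK.{u} H' := by
  intro R _ hR
  refine eq_top_iff.mpr fun x _ => imA1_of_mulEquiv e (fun y => ?_) x
  rw [h R hR]
  trivial

/-- `A₁` is onto for the group of all translations of a line if it is onto for the pointwise
stabilizer and if this stabilizer lies in the class `TDCl`. -/
theorem hk_trl {T : SimpleGraph V} (hT : T.IsTree) (hℓ : IsLine T ℓ) (hK : HK.{u} (fixL G ℓ))
    (hD : TDCl.{u} (fixL G ℓ)) : HK.{u} (Trl G ℓ) := by
  have hinj : Function.Injective ℓ := line_inj hT hℓ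
  let _ : MulAction (Trl G ℓ) ℤ := shAct hinj
  have hsm : ∀ (g : Trl G ℓ) (n : ℤ), g • n = n + sh g := fun _ _ => rfl
  let A : TreeAction (Trl G ℓ) ℤ :=
    { graph := zGraph
      tree := zGraph_tree
      adj_smul := by
        intro g x y h
        rw [zGraph_adj, hsm, hsm]
        rw [zGraph_adj] at h
        omega
      no_inversion := by
        intro g x y h h1 h2
        rw [hsm] at h1 h2
        rw [zGraph_adj] at h
        omega }
  have hst : ∀ n : ℤ, ∀ g : Trl G ℓ, g ∈ stabilizer (Trl G ℓ) n ↔ sh g = 0 := by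
    intro n g
    rw [mem_stabilizer_iff, hsm]
    omega
  refine hk_of_tree_rayT A ?_ (fun n => hk_of_equiv (fixEquiv hinj _ (hst n)) hK) ?_
  · intro ρ _ _
    refine ⟨0, ?_⟩
    refine TDCl.sub _ _ (fixEquiv hinj (⨅ i : Fin (0 + 1), stabilizer (Trl G ℓ) (ρ i))
      ?_).symm.toMonoidHom (fixEquiv hinj _ _).symm.injective hD
    intro g
    rw [Subgroup.mem_iInf]
    exact ⟨fun h => (hst _ g).mp (h 0), fun h i => (hst _ g).mpr h⟩
  · intro x y _ R _ hR
    refine (hk_of_equiv (fixEquiv hinj (stabilizer (Trl G ℓ) x ⊓ stabilizer (Trl G ℓ) y)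
      ?_) hK).kSurj hR
    intro g
    rw [Subgroup.mem_inf, hst, hst, and_self]

end Trans

end Pool.Agent.Lib.MP_c052b4_al.LK
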